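import Mathlib
import Pool.Agent.Lib.MP_2d59ee_ag.R.R6
import Pool.Agent.Lib.MP_2d59ee_ag.R.R10
import Pool.Agent.Lib.MP_2d59ee_ag.Q.Q7

set_option autoImplicit false
open MvPolynomial
open Pool.Agent.Lib.MP_2d59ee_ag (Adm)

namespace Pool.Agent.Results.MP_2d59ee_ag.DensityRate

/-- `(a,b,m,n)` lies in `Q`, the polynomials `F, G` satisfy conditions 1-5 of the problem, and
`[F, G]` is not zero. -/
def Counterexample (a b m n : ℕ) (F G : MvPolynomial (Fin 2) ℂ) : Prop :=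
  (0 < m ∧ m < n ∧ a ∣ m ∧ a ∣ n ∧ Nat.gcd a b = 1 ∧ 2 ≤ a ∧ a < b) ∧
  (convexHull ℝ (insert ((0:ℝ), (0:ℝ))
      ((fun d : Fin 2 →₀ ℕ => ((d 0 : ℝ), (d 1 : ℝ))) '' (↑F.support : Set (Fin 2 →₀ ℕ))))
      = {p : ℝ × ℝ | 0 ≤ p.2 ∧ p.2 ≤ (n : ℝ) ∧ 0 ≤ p.1 ∧ p.1 ≤ (m : ℝ) + (n : ℝ) - p.2} ∧
    convexHull ℝ (insert ((0:ℝ), (0:ℝ))
      ((fun d : Fin 2 →₀ ℕ => ((d 0 : ℝ), (d 1 : ℝ))) ''
        (↑(F - X 0 ^ m * X 1 ^ n).support : Set (Fin 2 →₀ ℕ))))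
      ⊂ convexHull ℝ (insert ((0:ℝ), (0:ℝ))
      ((fun d : Fin 2 →₀ ℕ => ((d 0 : ℝ), (d 1 : ℝ))) '' (↑F.support : Set (Fin 2 →₀ ℕ))))) ∧
  (∀ i : ℕ, i ≤ m →
    ((X 0 + 1 : MvPolynomial (Fin 2) ℂ) ^ (m - i)) ∣
      weightedHomogeneousComponent (![(0:ℕ), 1] : Fin 2 → ℕ) (n - i) F) ∧
  (∀ i : ℕ, i ≤ n →
    ((X 0 + X 1 : MvPolynomial (Fin 2) ℂ) ^ (n - i)) ∣
      homogeneousComponent (m + n - i) F) ∧
  (convexHull ℝ (insert ((0:ℝ), (0:ℝ))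
      ((fun d : Fin 2 →₀ ℕ => ((d 0 : ℝ), (d 1 : ℝ))) '' (↑G.support : Set (Fin 2 →₀ ℕ))))
      = {p : ℝ × ℝ | 0 ≤ p.2 ∧ p.2 ≤ ((b * n / a : ℕ) : ℝ) ∧ 0 ≤ p.1 ∧
          p.1 ≤ ((b * m / a : ℕ) : ℝ) + ((b * n / a : ℕ) : ℝ) - p.2} ∧
    convexHull ℝ (insert ((0:ℝ), (0:ℝ))
      ((fun d : Fin 2 →₀ ℕ => ((d 0 : ℝ), (d 1 : ℝ))) ''
        (↑(G - X 0 ^ (b * m / a) * X 1 ^ (b * n / a)).support : Set (Fin 2 →₀ ℕ))))
      ⊂ convexHull ℝ (insert ((0:ℝ), (0:ℝ))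
      ((fun d : Fin 2 →₀ ℕ => ((d 0 : ℝ), (d 1 : ℝ))) '' (↑G.support : Set (Fin 2 →₀ ℕ))))) ∧
  (∃ c : ℂ, pderiv 0 F * pderiv 1 G - pderiv 1 F * pderiv 0 G = C c) ∧
  pderiv 0 F * pderiv 1 G - pderiv 1 F * pderiv 0 G ≠ 0

/-- The pairs `(s, t)` that the theorem leaves open. -/
def Unsettled (s t : ℕ) : Prop :=
  Adm (Nat.gcd s t) t (t - s) ∨
    (s ∣ t ∧ ∃ g M : ℕ, g ∣ s ∧ g < s ∧ M ≤ t ∧ Adm g M (M - s))

theorem adm_three {g N x : ℕ} (h : Adm g N x) : 3 ≤ g := by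
  induction h with
  | line g N x q e d hg => exact hg
  | step g N x q e d r g' M y he heq cop hd hdet hdx hdg hed hr hN hx hy hg' hd' hM' hy' hr' hnd h ih =>
    have hg0 : 0 < g := by
      rcases Nat.eq_zero_or_pos g with h0 | h0
      · subst h0
        omega
      · exact h0
    exact ih.trans (Nat.le_of_dvd hg0 hg')

theorem dvd_of_unsettled {a m n : ℕ} (ha : 0 < a) (hm : a ∣ m) (hn : a ∣ n)
    (h : Unsettled (m / a) (n / a)) (hg : Nat.gcd m n ≤ 2 * a) : m ∣ n := by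
  obtain ⟨m', rfl⟩ := hm
  obtain ⟨n', rfl⟩ := hn
  rw [Nat.mul_div_cancel_left _ ha, Nat.mul_div_cancel_left _ ha] at h
  rcases h with h | ⟨h, -⟩
  · exfalso
    have h3 := adm_three h
    rw [Nat.gcd_mul_left] at hg
    nlinarith
  · exact Nat.mul_dvd_mul_left a h

/-- Q1 holds for all `(a, b, m, n)` in `Q` such that `(m/a, n/a)` is not in the explicit set of the
unsettled pairs, in particular if `gcd(m, n) ≤ 2a` and `m` does not divide `n`. Up to `X` this set has at most `C X² (log log X / log X)²` elements, and at most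
`4 g⁷ X ^ (2 - 2 ^ (1 - Ω(g)))` pairs with greatest common divisor `g` satisfy `Adm g t (t - s)`,
where `Ω(g)` is the number of prime factors of `g`, with multiplicity. -/
theorem result :
    (∀ (a b m n : ℕ) (F G : MvPolynomial (Fin 2) ℂ), Counterexample a b m n F G →
      Unsettled (m / a) (n / a) ∧ (Nat.gcd m n ≤ 2 * a → m ∣ n)) ∧
    (∃ C : ℝ, ∀ X : ℕ, 3 ≤ X →
      ({p : ℕ × ℕ | 0 < p.1 ∧ p.1 < p.2 ∧ p.2 ≤ X ∧ Unsettled p.1 p.2} : Set (ℕ × ℕ)).Finite ∧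
      (({p : ℕ × ℕ | 0 < p.1 ∧ p.1 < p.2 ∧ p.2 ≤ X ∧ Unsettled p.1 p.2} :
        Set (ℕ × ℕ)).ncard : ℝ) ≤
        C * ((X : ℝ) ^ 2 * (Real.log (Real.log X) / Real.log X) ^ 2)) ∧
    (∀ g X : ℕ, 1 ≤ X →
      (({p : ℕ × ℕ | 0 < p.1 ∧ p.1 < p.2 ∧ p.2 ≤ X ∧ Nat.gcd p.1 p.2 = g ∧
        Adm g p.2 (p.2 - p.1)} : Set (ℕ × ℕ)).ncard : ℝ) ≤
        4 * (g : ℝ) ^ 7 *
          (X : ℝ) ^ ((2 : ℝ) - (2 : ℝ) ^ (1 - (ArithmeticFunction.cardFactors g : ℝ)))) := by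
  have key : ∀ (a b m n : ℕ) (F G : MvPolynomial (Fin 2) ℂ), Counterexample a b m n F G →
      Unsettled (m / a) (n / a) := by
    rintro a b m n F G ⟨⟨hm0, hmn, ⟨m', rfl⟩, ⟨n', rfl⟩, hab, ha, hlt⟩, ⟨h1, -⟩, -, h3, ⟨h4, -⟩,
      ⟨c, hc⟩, h6⟩
    have ha0 : 0 < a := by omega
    have hb0 : 0 < b := by omega
    have hm' : 0 < m' := Nat.pos_of_mul_pos_left hm0
    have hmn' : m' < n' := Nat.lt_of_mul_lt_mul_left hmn
    rw [Nat.mul_div_cancel_left _ ha0, Nat.mul_div_cancel_left _ ha0]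
    have hbm : b * (a * m') / a = b * m' := by
      rw [mul_left_comm]; exact Nat.mul_div_cancel_left _ ha0
    have hbn : b * (a * n') / a = b * n' := by
      rw [mul_left_comm]; exact Nat.mul_div_cancel_left _ ha0
    rw [hbm, hbn] at h4
    have hn' : 0 < n' := hm'.trans hmn'
    have hc0 : c ≠ 0 := by
      intro h0
      apply h6
      rw [hc, h0, map_zero]
    obtain ⟨N₁, x₁, E, G₁, α, k, hN₁, g, hE1, hx, hN, hor⟩ :=
      Pool.Agent.Lib.MP_2d59ee_ag.start_goodG a b m' n' hm' hmn' hab ha hlt F G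
        (Pool.Agent.Lib.MP_2d59ee_ag.hull_supp F (a * m') (a * n') h1)
        (Pool.Agent.Lib.MP_2d59ee_ag.hull_supp G (b * m') (b * n') h4)
        (Pool.Agent.Lib.MP_2d59ee_ag.hull_vertex F (a * m') (a * n') (Nat.mul_pos ha0 hn') h1)
        (Pool.Agent.Lib.MP_2d59ee_ag.hull_vertex G (b * m') (b * n') (Nat.mul_pos hb0 hn') h4)
        h3 c hc0 hc
    have hadm := Pool.Agent.Lib.MP_2d59ee_ag.low_adm a b ha hlt hab N₁ E G₁ α k g hE1 x₁ hx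
    have hx₁ : N₁ - m' = x₁ := by omega
    rcases hor with ⟨hNn, hG⟩ | ⟨hdvd, hG1, hG2⟩
    · left
      subst hNn
      subst hG
      rw [hx₁]
      exact hadm
    · right
      refine ⟨hdvd, G₁, N₁, hG1, ?_, hN₁, ?_⟩
      · have h7 := Nat.le_of_dvd hm' hG1
        have h8 : G₁ ≠ m' := by
          intro h9
          apply hG2
          rw [h9]
        omega
      · rw [hx₁]
        exact hadm
  refine ⟨fun a b m n F G h => ⟨key a b m n F G h, fun hg => ?_⟩, ?_,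
    fun g X hX => Pool.Agent.Lib.MP_2d59ee_ag.single_gcd g X hX⟩
  · exact dvd_of_unsettled (by have := h.1.2.2.2.2.2.1; omega) h.1.2.2.1 h.1.2.2.2.1
      (key a b m n F G h) hg
  · obtain ⟨C, hC⟩ := Pool.Agent.Lib.MP_2d59ee_ag.density_rate2 Unsettled (by
      rintro s t hs hst (h | ⟨h, -⟩)
      · exact Or.inr h
      · exact Or.inl h)
    exact ⟨C, fun X hX => ⟨Pool.Agent.Lib.MP_2d59ee_ag.count_fin _ X, hC X hX⟩⟩

end Pool.Agent.Results.MP_2d59ee_ag.DensityRate
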