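import Mathlib
import Pool.Agent.Lib.MP_2d59ee_ag.R.R6
import Pool.Agent.Lib.MP_2d59ee_ag.R.R16

set_option autoImplicit false
open MvPolynomial

namespace Pool.Agent.Results.MP_2d59ee_ag.PrimeGcd

/-- Q1 holds for all `(a,b,m,n)` in `Q` such that `g = gcd(m,n)/a` is `1`, `4` or a prime, outside the explicit
lines `m/a = r + f s`, `(n-m)/a = κ (h s - w)` with `g = h r + f w`, `κ w ≤ r`, `gcd(κ h, f) = 1`,
`(κ h - 1) s > κ g` and `b ≤ (κ h - 1) ((κ g + 1) a - 1)`. -/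
theorem result :
    ∀ (a b m n g : ℕ), 0 < m → m < n → a ∣ m → a ∣ n → Nat.gcd a b = 1 → 2 ≤ a → a < b →
    Nat.gcd m n = a * g → (g = 1 ∨ g.Prime ∨ g = 4) →
    ¬ (∃ f κ h r w s : ℕ, 0 < f ∧ 0 < κ ∧ 0 < h ∧ 0 < r ∧ 0 < w ∧ 0 < s ∧
      g = h * r + f * w ∧ κ * w ≤ r ∧ Nat.Coprime (κ * h) f ∧
      m = a * (r + f * s) ∧ n + a * (κ * w) = m + a * (κ * h * s) ∧
      κ * g + s < κ * h * s ∧ b ≤ (κ * h - 1) * ((κ * g + 1) * a - 1)) →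
    ∀ F G : MvPolynomial (Fin 2) ℂ,
      convexHull ℝ (insert ((0:ℝ), (0:ℝ))
        ((fun d : Fin 2 →₀ ℕ => ((d 0 : ℝ), (d 1 : ℝ))) '' (↑F.support : Set (Fin 2 →₀ ℕ))))
        = {p : ℝ × ℝ | 0 ≤ p.2 ∧ p.2 ≤ (n : ℝ) ∧ 0 ≤ p.1 ∧ p.1 ≤ (m : ℝ) + (n : ℝ) - p.2} →
      convexHull ℝ (insert ((0:ℝ), (0:ℝ))
        ((fun d : Fin 2 →₀ ℕ => ((d 0 : ℝ), (d 1 : ℝ))) ''
          (↑(F - X 0 ^ m * X 1 ^ n).support : Set (Fin 2 →₀ ℕ))))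
        ⊂ convexHull ℝ (insert ((0:ℝ), (0:ℝ))
        ((fun d : Fin 2 →₀ ℕ => ((d 0 : ℝ), (d 1 : ℝ))) '' (↑F.support : Set (Fin 2 →₀ ℕ)))) →
      (∀ i : ℕ, i ≤ m →
        ((X 0 + 1 : MvPolynomial (Fin 2) ℂ) ^ (m - i)) ∣
          weightedHomogeneousComponent (![(0:ℕ), 1] : Fin 2 → ℕ) (n - i) F) →
      (∀ i : ℕ, i ≤ n →
        ((X 0 + X 1 : MvPolynomial (Fin 2) ℂ) ^ (n - i)) ∣
          homogeneousComponent (m + n - i) F) →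
      convexHull ℝ (insert ((0:ℝ), (0:ℝ))
        ((fun d : Fin 2 →₀ ℕ => ((d 0 : ℝ), (d 1 : ℝ))) '' (↑G.support : Set (Fin 2 →₀ ℕ))))
        = {p : ℝ × ℝ | 0 ≤ p.2 ∧ p.2 ≤ ((b * n / a : ℕ) : ℝ) ∧ 0 ≤ p.1 ∧
            p.1 ≤ ((b * m / a : ℕ) : ℝ) + ((b * n / a : ℕ) : ℝ) - p.2} →
      convexHull ℝ (insert ((0:ℝ), (0:ℝ))
        ((fun d : Fin 2 →₀ ℕ => ((d 0 : ℝ), (d 1 : ℝ))) ''
          (↑(G - X 0 ^ (b * m / a) * X 1 ^ (b * n / a)).support : Set (Fin 2 →₀ ℕ))))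
        ⊂ convexHull ℝ (insert ((0:ℝ), (0:ℝ))
        ((fun d : Fin 2 →₀ ℕ => ((d 0 : ℝ), (d 1 : ℝ))) '' (↑G.support : Set (Fin 2 →₀ ℕ)))) →
      (∃ c : ℂ, pderiv 0 F * pderiv 1 G - pderiv 1 F * pderiv 0 G = C c) →
      pderiv 0 F * pderiv 1 G - pderiv 1 F * pderiv 0 G = 0 := by
  intro a b m n g hm hmn ham han hab ha hlt hgcd hg hcond F G h1 _ _ h3 h4 _ h5
  obtain ⟨m', rfl⟩ := ham
  obtain ⟨n', rfl⟩ := han
  obtain ⟨c, hc⟩ := h5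
  have ha0 : 0 < a := by omega
  have hb0 : 0 < b := by omega
  have hbm : b * (a * m') / a = b * m' := by
    rw [mul_left_comm]; exact Nat.mul_div_cancel_left _ ha0
  have hbn : b * (a * n') / a = b * n' := by
    rw [mul_left_comm]; exact Nat.mul_div_cancel_left _ ha0
  rw [hbm, hbn] at h4
  have hm' : 0 < m' := Nat.pos_of_mul_pos_left hm
  have hmn' : m' < n' := Nat.lt_of_mul_lt_mul_left hmn
  have hn' : 0 < n' := hm'.trans hmn'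
  have hgg : g = Nat.gcd m' n' := by
    have e : a * g = a * Nat.gcd m' n' := by rw [← hgcd, Nat.gcd_mul_left]
    exact Nat.eq_of_mul_eq_mul_left ha0 e
  subst hgg
  by_cases hc0 : c = 0
  · rw [hc, hc0, map_zero]
  · exfalso
    obtain ⟨f, κ, h, r, w, s, c1, c2, c3, c4, c5, c6, c7, c8, c9, c10, c11, c12, c13⟩ :=
      Pool.Agent.Lib.MP_2d59ee_ag.start_param a b ha hlt hab
      (Pool.Agent.Lib.MP_2d59ee_ag.start_goodG a b m' n' hm' hmn' hab ha hlt F G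
        (Pool.Agent.Lib.MP_2d59ee_ag.hull_supp F (a * m') (a * n') h1)
        (Pool.Agent.Lib.MP_2d59ee_ag.hull_supp G (b * m') (b * n') h4)
        (Pool.Agent.Lib.MP_2d59ee_ag.hull_vertex F (a * m') (a * n') (Nat.mul_pos ha0 hn') h1)
        (Pool.Agent.Lib.MP_2d59ee_ag.hull_vertex G (b * m') (b * n') (Nat.mul_pos hb0 hn') h4)
        h3 c hc0 hc) hg
    apply hcond
    refine ⟨f, κ, h, r, w, s, c1, c2, c3, c4, c5, c6, c8, c9, c7, by rw [c10], ?_, c12, c13⟩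
    rw [← Nat.mul_add, c11, Nat.mul_add]

end Pool.Agent.Results.MP_2d59ee_ag.PrimeGcd
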