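import Mathlib
import Pool.Agent.Lib.MP_2d59ee_ag.R.R6
import Pool.Agent.Lib.MP_2d59ee_ag.R.R15
import Pool.Agent.Lib.MP_2d59ee_ag.R.R17

set_option autoImplicit false
open MvPolynomial

namespace Pool.Agent.Results.MP_2d59ee_ag.SlopeBounds

/-- Let `g = gcd(m,n)/a`. Q1 holds for all `(a,b,m,n)` in `Q` unless `g ≥ 3`,
`m + n ≤ g (n - m)`, (`m ∣ n` or `(n - m)⁶ < 16 g⁷ m⁶`), `2 a + b ≤ n - m + 1` and
`b ≤ (g - 2) ((g² - g + 1) a - 1)`. -/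
theorem result :
    ∀ (a b m n g : ℕ), 0 < m → m < n → a ∣ m → a ∣ n → Nat.gcd a b = 1 → 2 ≤ a → a < b →
    Nat.gcd m n = a * g →
    ¬ (3 ≤ g ∧ m + n ≤ g * (n - m) ∧ (m ∣ n ∨ (n - m) ^ 6 < 16 * g ^ 7 * m ^ 6) ∧
      2 * a + b + m ≤ n + 1 ∧ b ≤ (g - 2) * ((g ^ 2 - g + 1) * a - 1)) →
    ∀ F G : MvPolynomial (Fin 2) ℂ,
      convexHull ℝ (insert ((0:ℝ), (0:ℝ))
        ((fun d : Fin 2 →₀ ℕ => ((d 0 : ℝ), (d 1 : ℝ))) '' (↑F.support : Set (Fin 2 →₀ ℕ))))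
        = {p : ℝ × ℝ | 0 ≤ p.2 ∧ p.2 ≤ (n : ℝ) ∧ 0 ≤ p.1 ∧ p.1 ≤ (m : ℝ) + (n : ℝ) - p.2} →
      convexHull ℝ (insert ((0:ℝ), (0:ℝ))
        ((fun d : Fin 2 →₀ ℕ => ((d 0 : ℝ), (d 1 : ℝ))) ''
          (↑(F - X 0 ^ m * X 1 ^ n).support : Set (Fin 2 →₀ ℕ))))
        ⊂ convexHull ℝ (insert ((0:ℝ), (0:ℝ))
        ((fun d : Fin 2 →₀ ℕ => ((d 0 : ℝ), (d 1 : ℝ))) '' (↑F.support : Set (Fin 2 →₀ ℕ)))) →
      (∀ i : ℕ, i ≤ m →
        ((X 0 + 1 : MvPolynomial (Fin 2) ℂ) ^ (m - i)) ∣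
          weightedHomogeneousComponent (![(0:ℕ), 1] : Fin 2 → ℕ) (n - i) F) →
      (∀ i : ℕ, i ≤ n →
        ((X 0 + X 1 : MvPolynomial (Fin 2) ℂ) ^ (n - i)) ∣
          homogeneousComponent (m + n - i) F) →
      convexHull ℝ (insert ((0:ℝ), (0:ℝ))
        ((fun d : Fin 2 →₀ ℕ => ((d 0 : ℝ), (d 1 : ℝ))) '' (↑G.support : Set (Fin 2 →₀ ℕ))))
        = {p : ℝ × ℝ | 0 ≤ p.2 ∧ p.2 ≤ ((b * n / a : ℕ) : ℝ) ∧ 0 ≤ p.1 ∧
            p.1 ≤ ((b * m / a : ℕ) : ℝ) + ((b * n / a : ℕ) : ℝ) - p.2} →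
      convexHull ℝ (insert ((0:ℝ), (0:ℝ))
        ((fun d : Fin 2 →₀ ℕ => ((d 0 : ℝ), (d 1 : ℝ))) ''
          (↑(G - X 0 ^ (b * m / a) * X 1 ^ (b * n / a)).support : Set (Fin 2 →₀ ℕ))))
        ⊂ convexHull ℝ (insert ((0:ℝ), (0:ℝ))
        ((fun d : Fin 2 →₀ ℕ => ((d 0 : ℝ), (d 1 : ℝ))) '' (↑G.support : Set (Fin 2 →₀ ℕ)))) →
      (∃ c : ℂ, pderiv 0 F * pderiv 1 G - pderiv 1 F * pderiv 0 G = C c) →
      pderiv 0 F * pderiv 1 G - pderiv 1 F * pderiv 0 G = 0 := by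
  intro a b m n g hm hmn ham han hab ha hlt hgcd hcond F G h1 _ _ h3 h4 _ h5
  obtain ⟨m', rfl⟩ := ham
  obtain ⟨n', rfl⟩ := han
  obtain ⟨c, hc⟩ := h5
  have ha0 : 0 < a := by omega
  have hb0 : 0 < b := by omega
  have hbm : b * (a * m') / a = b * m' := by
    rw [mul_left_comm]; exact Nat.mul_div_cancel_left _ ha0
  have hbn : b * (a * n') / a = b * n' := by
    rw [mul_left_comm]; exact Nat.mul_div_cancel_left _ ha0
  rw [hbm, hbn] at h4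
  have hm' : 0 < m' := Nat.pos_of_mul_pos_left hm
  have hmn' : m' < n' := Nat.lt_of_mul_lt_mul_left hmn
  have hn' : 0 < n' := hm'.trans hmn'
  have hgg : g = Nat.gcd m' n' := by
    have e : a * g = a * Nat.gcd m' n' := by rw [← hgcd, Nat.gcd_mul_left]
    exact Nat.eq_of_mul_eq_mul_left ha0 e
  subst hgg
  by_cases hc0 : c = 0
  · rw [hc, hc0, map_zero]
  · exfalso
    have hstart := Pool.Agent.Lib.MP_2d59ee_ag.start_goodG a b m' n' hm' hmn' hab ha hlt F G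
        (Pool.Agent.Lib.MP_2d59ee_ag.hull_supp F (a * m') (a * n') h1)
        (Pool.Agent.Lib.MP_2d59ee_ag.hull_supp G (b * m') (b * n') h4)
        (Pool.Agent.Lib.MP_2d59ee_ag.hull_vertex F (a * m') (a * n') (Nat.mul_pos ha0 hn') h1)
        (Pool.Agent.Lib.MP_2d59ee_ag.hull_vertex G (b * m') (b * n') (Nat.mul_pos hb0 hn') h4)
        h3 c hc0 hc
    obtain ⟨k1, k2, -, -, -, -⟩ := Pool.Agent.Lib.MP_2d59ee_ag.start_bounds a b ha hlt hab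
      hm' hmn' hstart
    have k3 := Pool.Agent.Lib.MP_2d59ee_ag.start_upper a b ha hlt hab hstart
    have k4 := Pool.Agent.Lib.MP_2d59ee_ag.start_ratio a b ha hlt hab hm' hstart
    apply hcond
    have e1 : a * n' - a * m' = a * (n' - m') := (Nat.mul_sub a n' m').symm
    refine ⟨k1, ?_, ?_, ?_, k4⟩
    · rw [e1]
      calc a * m' + a * n' = a * (m' + n') := by ring
        _ ≤ a * (Nat.gcd m' n' * (n' - m')) := Nat.mul_le_mul_left _ k2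
        _ = Nat.gcd m' n' * (a * (n' - m')) := by ring
    · rcases k3 with h | h
      · exact Or.inl (Nat.mul_dvd_mul_left a h)
      · right
        rw [e1]
        calc (a * (n' - m')) ^ 6 = a ^ 6 * (n' - m') ^ 6 := by ring
          _ < a ^ 6 * (16 * Nat.gcd m' n' ^ 7 * m' ^ 6) :=
              Nat.mul_lt_mul_of_pos_left h (pow_pos ha0 6)
          _ = 16 * Nat.gcd m' n' ^ 7 * (a * m') ^ 6 := by ring
    · have hdiv := h3 0 (Nat.zero_le _)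
      rw [Nat.sub_zero, Nat.sub_zero] at hdiv
      exact (Pool.Agent.Lib.MP_2d59ee_ag.final_arith a b m' n' hm' hmn' ha hlt
        (Pool.Agent.Lib.MP_2d59ee_ag.assembly a b m' n' hm' hmn' hab ha hlt F G
          (Pool.Agent.Lib.MP_2d59ee_ag.hull_supp F (a * m') (a * n') h1)
          (Pool.Agent.Lib.MP_2d59ee_ag.hull_supp G (b * m') (b * n') h4)
          (Pool.Agent.Lib.MP_2d59ee_ag.hull_vertex F (a * m') (a * n') (Nat.mul_pos ha0 hn') h1)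
          (Pool.Agent.Lib.MP_2d59ee_ag.hull_vertex G (b * m') (b * n') (Nat.mul_pos hb0 hn') h4)
          hdiv c hc0 hc)).1

end Pool.Agent.Results.MP_2d59ee_ag.SlopeBounds
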