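import Mathlib
import Pool.Agent.Lib.MP_2d59ee_ag.Top
import Pool.Agent.Lib.MP_2d59ee_ag.JMain

set_option autoImplicit false
open MvPolynomial

namespace Pool.Agent.Results.MP_2d59ee_ag.ThreeFamilies

/-- For all `(a,b,m,n)` in `Q` with `n - m ≤ 11 a`, the bracket vanishes unless `(a,b,m,n)` is
in one of three explicit one-parameter families: `(4a, 12a)` with `2b + 1 = 3a` and `a` not
congruent to `1` modulo `6`, or `(6a, 15a)` with `b + 1 = 4a` or `2b + 1 = 5a`. -/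
theorem result :
    ∀ (a b m n : ℕ), 0 < m → m < n → a ∣ m → a ∣ n → Nat.gcd a b = 1 → 2 ≤ a → a < b →
    n - m ≤ 11 * a →
    ∀ F G : MvPolynomial (Fin 2) ℂ,
      convexHull ℝ (insert ((0:ℝ), (0:ℝ))
        ((fun d : Fin 2 →₀ ℕ => ((d 0 : ℝ), (d 1 : ℝ))) '' (↑F.support : Set (Fin 2 →₀ ℕ))))
        = {p : ℝ × ℝ | 0 ≤ p.2 ∧ p.2 ≤ (n : ℝ) ∧ 0 ≤ p.1 ∧ p.1 ≤ (m : ℝ) + (n : ℝ) - p.2} →
      convexHull ℝ (insert ((0:ℝ), (0:ℝ))
        ((fun d : Fin 2 →₀ ℕ => ((d 0 : ℝ), (d 1 : ℝ))) ''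
          (↑(F - X 0 ^ m * X 1 ^ n).support : Set (Fin 2 →₀ ℕ))))
        ⊂ convexHull ℝ (insert ((0:ℝ), (0:ℝ))
        ((fun d : Fin 2 →₀ ℕ => ((d 0 : ℝ), (d 1 : ℝ))) '' (↑F.support : Set (Fin 2 →₀ ℕ)))) →
      (∀ i : ℕ, i ≤ m →
        ((X 0 + 1 : MvPolynomial (Fin 2) ℂ) ^ (m - i)) ∣
          weightedHomogeneousComponent (![(0:ℕ), 1] : Fin 2 → ℕ) (n - i) F) →
      (∀ i : ℕ, i ≤ n →
        ((X 0 + X 1 : MvPolynomial (Fin 2) ℂ) ^ (n - i)) ∣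
          homogeneousComponent (m + n - i) F) →
      convexHull ℝ (insert ((0:ℝ), (0:ℝ))
        ((fun d : Fin 2 →₀ ℕ => ((d 0 : ℝ), (d 1 : ℝ))) '' (↑G.support : Set (Fin 2 →₀ ℕ))))
        = {p : ℝ × ℝ | 0 ≤ p.2 ∧ p.2 ≤ ((b * n / a : ℕ) : ℝ) ∧ 0 ≤ p.1 ∧
            p.1 ≤ ((b * m / a : ℕ) : ℝ) + ((b * n / a : ℕ) : ℝ) - p.2} →
      convexHull ℝ (insert ((0:ℝ), (0:ℝ))
        ((fun d : Fin 2 →₀ ℕ => ((d 0 : ℝ), (d 1 : ℝ))) ''
          (↑(G - X 0 ^ (b * m / a) * X 1 ^ (b * n / a)).support : Set (Fin 2 →₀ ℕ))))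
        ⊂ convexHull ℝ (insert ((0:ℝ), (0:ℝ))
        ((fun d : Fin 2 →₀ ℕ => ((d 0 : ℝ), (d 1 : ℝ))) '' (↑G.support : Set (Fin 2 →₀ ℕ)))) →
      (∃ c : ℂ, pderiv 0 F * pderiv 1 G - pderiv 1 F * pderiv 0 G = C c) →
      pderiv 0 F * pderiv 1 G - pderiv 1 F * pderiv 0 G = 0 ∨
        (m = 4 * a ∧ n = 12 * a ∧ 2 * b + 1 = 3 * a ∧ a % 6 ≠ 1) ∨
        (m = 6 * a ∧ n = 15 * a ∧ (b + 1 = 4 * a ∨ 2 * b + 1 = 5 * a)) := by
  intro a b m n hm hmn ham han hab ha hlt hcond F G h1 _ h2 h3 h4 _ h5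
  obtain ⟨m', rfl⟩ := ham
  obtain ⟨n', rfl⟩ := han
  obtain ⟨c, hc⟩ := h5
  have ha0 : 0 < a := by omega
  have hb0 : 0 < b := by omega
  have hbm : b * (a * m') / a = b * m' := by
    rw [mul_left_comm]; exact Nat.mul_div_cancel_left _ ha0
  have hbn : b * (a * n') / a = b * n' := by
    rw [mul_left_comm]; exact Nat.mul_div_cancel_left _ ha0
  rw [hbm, hbn] at h4
  have hm' : 0 < m' := Nat.pos_of_mul_pos_left hm
  have hmn' : m' < n' := Nat.lt_of_mul_lt_mul_left hmn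
  have hn' : 0 < n' := hm'.trans hmn'
  by_cases hc0 : c = 0
  · left
    rw [hc, hc0, map_zero]
  · right
    have ht : n' - m' ≤ 11 := by
      have h6 : a * (n' - m') ≤ a * 11 := by
        rw [Nat.mul_sub]; omega
      exact Nat.le_of_mul_le_mul_left h6 ha0
    have key := Pool.Agent.Lib.MP_2d59ee_ag.classify ha hlt hab hmn' ht
      (Pool.Agent.Lib.MP_2d59ee_ag.start_good a b m' n' hm' hmn' hab ha hlt F G
        (Pool.Agent.Lib.MP_2d59ee_ag.hull_supp F (a * m') (a * n') h1)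
        (Pool.Agent.Lib.MP_2d59ee_ag.hull_supp G (b * m') (b * n') h4)
        (Pool.Agent.Lib.MP_2d59ee_ag.hull_vertex F (a * m') (a * n') (Nat.mul_pos ha0 hn') h1)
        (Pool.Agent.Lib.MP_2d59ee_ag.hull_vertex G (b * m') (b * n') (Nat.mul_pos hb0 hn') h4)
        h3 c hc0 hc)
    rcases key with ⟨e1, e2, e3⟩ | ⟨e1, e2, e3⟩
    · left
      subst e1 e2
      refine ⟨mul_comm _ _, mul_comm _ _, by omega, ?_⟩
      intro h6
      exact Pool.Agent.Lib.MP_2d59ee_ag.J.no_shape ha hlt hab h6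
        (Pool.Agent.Lib.MP_2d59ee_ag.J.shape_of ha0
          (Pool.Agent.Lib.MP_2d59ee_ag.hull_supp F (a * 4) (a * 12) h1)
          (Pool.Agent.Lib.MP_2d59ee_ag.hull_supp G (b * 4) (b * 12) h4)
          (Pool.Agent.Lib.MP_2d59ee_ag.hull_vertex F (a * 4) (a * 12) (Nat.mul_pos ha0 hn') h1)
          (Pool.Agent.Lib.MP_2d59ee_ag.hull_vertex G (b * 4) (b * 12) (Nat.mul_pos hb0 hn') h4)
          (by simpa using h2 0 (Nat.zero_le _)) h3 c hc0 hc)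
    · right
      subst e1 e2
      exact ⟨mul_comm _ _, mul_comm _ _, by omega⟩

end Pool.Agent.Results.MP_2d59ee_ag.ThreeFamilies
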